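import Pool.Agent.H.MP_2de88f_co.Lines

set_option autoImplicit false

namespace Pool.Agent.H.MP_2de88f_co

namespace LData

variable {D : LData}

/-- generators of the lower lines -/
noncomputable def j0 (p : Σ k, D.V k) : D.L := ⟨(upd p, fun _ => MA.bot), fun _ _ => MA.bot_le _⟩

/-- generators of the upper lines -/
noncomputable def j1 (p : Σ t, D.E t) : D.L :=
  ⟨(fun k => MA.pt (D.f p.1 k p.2), upd p), by
    intro t k
    change MA.map (D.f t k) (upd p t) ≤ MA.pt (D.f p.1 k p.2)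
    by_cases h : t = p.1
    · subst h; rw [upd_self]; exact le_rfl
    · rw [upd_ne p h]; exact MA.bot_le _⟩

/-- the least element -/
def botL : D.L := ⟨(fun _ => MA.bot, fun _ => MA.bot), fun _ _ => MA.bot_le _⟩

/-- the largest element with trivial upper part -/
def aL : D.L := ⟨(fun _ => MA.top, fun _ => MA.bot), fun _ _ => MA.bot_le _⟩

theorem botL_le (w : D.L) : botL ≤ w := ⟨fun _ => MA.bot_le _, fun _ => MA.bot_le _⟩

instance : OrderBot D.L where
  bot := botL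
  bot_le := botL_le

theorem le_aL_iff (w : D.L) : w ≤ aL ↔ ∀ t, up w t = MA.bot := by
  constructor
  · intro h t; exact (MA.le_bot_iff _).mp (h.2 t)
  · intro h
    exact ⟨fun _ => MA.le_top _, fun t => (MA.le_bot_iff _).mpr (h t)⟩

theorem j0_le_iff (p : Σ k, D.V k) (w : D.L) : j0 p ≤ w ↔ MA.pt p.2 ≤ lo w p.1 := by
  rw [← upd_le_iff p (lo w)]
  constructor
  · intro h; exact h.1
  · intro h; exact ⟨h, fun _ => MA.bot_le _⟩

theorem j1_le_iff (p : Σ t, D.E t) (w : D.L) : j1 p ≤ w ↔ MA.pt p.2 ≤ up w p.1 := by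
  constructor
  · intro h; exact (upd_le_iff p (up w)).mp h.2
  · intro h
    refine ⟨fun k => ?_, (upd_le_iff p (up w)).mpr h⟩
    exact (MA.map_mono (D.f p.1 k) h).trans (map_up_le_lo w p.1 k)

theorem j0_injective : Function.Injective (j0 (D := D)) := by
  intro p q h
  have h1 : j0 p ≤ j0 q := h.le
  rw [j0_le_iff] at h1
  change MA.pt p.2 ≤ upd q p.1 at h1
  by_cases h2 : p.1 = q.1
  · obtain ⟨pk, pv⟩ := p
    obtain ⟨qk, qv⟩ := q
    simp only at h2
    subst h2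
    rw [upd_self] at h1
    simp only [MA.pt_le_pt] at h1
    rw [h1]
  · rw [upd_ne q h2] at h1
    exact absurd h1 (MA.not_pt_le_bot _)

theorem j1_injective : Function.Injective (j1 (D := D)) := by
  intro p q h
  have h1 : j1 p ≤ j1 q := h.le
  rw [j1_le_iff] at h1
  change MA.pt p.2 ≤ upd q p.1 at h1
  by_cases h2 : p.1 = q.1
  · obtain ⟨pk, pv⟩ := p
    obtain ⟨qk, qv⟩ := q
    simp only at h2
    subst h2
    rw [upd_self] at h1
    simp only [MA.pt_le_pt] at h1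
    rw [h1]
  · rw [upd_ne q h2] at h1
    exact absurd h1 (MA.not_pt_le_bot _)

theorem j0_le_j1_iff (p : Σ k, D.V k) (q : Σ t, D.E t) :
    j0 p ≤ j1 q ↔ p.2 = D.f q.1 p.1 q.2 := by
  rw [j0_le_iff]
  exact Iff.rfl

theorem j0_line (a b c : Σ k, D.V k) (hab : a ≠ b) (hca : c ≠ a) (hcb : c ≠ b) :
    j0 c ≤ j0 a ⊔ j0 b ↔ (a.1 = b.1 ∧ c.1 = a.1) := by
  rw [j0_le_iff]
  exact upd_line a b c hab hca hcb

theorem j1_line (a b c : Σ t, D.E t) (hab : a ≠ b) (hca : c ≠ a) (hcb : c ≠ b) :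
    j1 c ≤ j1 a ⊔ j1 b ↔ (a.1 = b.1 ∧ c.1 = a.1) := by
  rw [j1_le_iff]
  exact upd_line a b c hab hca hcb

/-- Standing assumptions. -/
structure Ok (D : LData) : Prop where
  ne : Nonempty D.K0
  finK0 : Finite D.K0
  finK1 : Finite D.K1
  finV : ∀ k, Finite (D.V k)
  finE : ∀ t, Finite (D.E t)
  cV : ∀ k, 3 ≤ Nat.card (D.V k)
  cE : ∀ t, 3 ≤ Nat.card (D.E t)
  iV : Function.Injective fun k => Nat.card (D.V k)
  iE : Function.Injective fun t => Nat.card (D.E t)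

theorem Ok.ntV (h : Ok D) (k : D.K0) : Nontrivial (D.V k) := by
  have := h.finV k
  rw [← Finite.one_lt_card_iff_nontrivial]
  have := h.cV k
  omega

theorem Ok.ntE (h : Ok D) (t : D.K1) : Nontrivial (D.E t) := by
  have := h.finE t
  rw [← Finite.one_lt_card_iff_nontrivial]
  have := h.cE t
  omega

theorem le_iff_gen (h : Ok D) (x y : D.L) :
    x ≤ y ↔ (∀ p, j0 p ≤ x → j0 p ≤ y) ∧ (∀ p, j1 p ≤ x → j1 p ≤ y) := by
  constructor
  · intro hxy
    exact ⟨fun p hp => hp.trans hxy, fun p hp => hp.trans hxy⟩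
  · rintro ⟨h0, h1⟩
    refine ⟨fun k => ?_, fun t => ?_⟩
    · have := h.ntV k
      change lo x k ≤ lo y k
      rw [MA.le_iff_of_two]
      intro a ha
      exact (j0_le_iff ⟨k, a⟩ y).mp (h0 _ ((j0_le_iff ⟨k, a⟩ x).mpr ha))
    · have := h.ntE t
      change up x t ≤ up y t
      rw [MA.le_iff_of_two]
      intro a ha
      exact (j1_le_iff ⟨t, a⟩ y).mp (h1 _ ((j1_le_iff ⟨t, a⟩ x).mpr ha))

theorem j0_ne_bot (p : Σ k, D.V k) : j0 p ≠ ⊥ := by
  intro h
  have h1 : j0 p ≤ botL := h.le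
  rw [j0_le_iff] at h1
  exact MA.not_pt_le_bot _ h1

theorem j1_not_le_aL (p : Σ t, D.E t) : ¬ j1 p ≤ aL := by
  rw [j1_le_iff]
  exact MA.not_pt_le_bot _

theorem isAtom_iff (h : Ok D) (w : D.L) : IsAtom w ↔ ∃ p, w = j0 p := by
  constructor
  · intro hw
    have : ∃ k, lo w k ≠ MA.bot := by
      by_contra hcon
      push Not at hcon
      apply hw.1
      refine ext hcon (fun t => ?_)
      obtain ⟨k⟩ := h.ne
      have h1 := map_up_le_lo w t k
      rw [hcon k, MA.le_bot_iff] at h1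
      change up w t = MA.bot
      rcases hh : up w t with _ | a | _
      · rfl
      · rw [hh] at h1; exact absurd h1 (by simp)
      · rw [hh] at h1; exact absurd h1 (by simp)
    obtain ⟨k, hk⟩ := this
    have := h.ntV k
    obtain ⟨a, ha⟩ := MA.exists_pt_le hk
    refine ⟨⟨k, a⟩, ?_⟩
    have h1 : j0 ⟨k, a⟩ ≤ w := (j0_le_iff _ _).mpr ha
    exact ((hw.le_iff.mp h1).resolve_left (j0_ne_bot _)).symm
  · rintro ⟨p, rfl⟩
    refine ⟨j0_ne_bot p, fun u hu => ?_⟩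
    have hnot : ¬ j0 p ≤ u := fun h' => absurd (hu.trans_le h') (lt_irrefl _)
    rw [j0_le_iff] at hnot
    refine ext (fun k => ?_) (fun t => ?_)
    · change lo u k = MA.bot
      have h1 : lo u k ≤ upd p k := hu.le.1 k
      by_cases hk : k = p.1
      · subst hk
        rw [upd_self] at h1
        rcases hh : lo u p.1 with _ | a | _
        · rfl
        · rw [hh] at h1 hnot
          simp only [MA.pt_le_pt] at h1 hnot
          exact absurd h1.symm hnot
        · rw [hh] at h1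
          exact absurd h1 (MA.not_top_le_pt _)
      · rw [upd_ne p hk] at h1
        exact (MA.le_bot_iff _).mp h1
    · exact (MA.le_bot_iff _).mp (hu.le.2 t)

theorem min_iff (h : Ok D) (w : D.L) :
    (¬ w ≤ aL ∧ ∀ u < w, u ≤ aL) ↔ ∃ p, w = j1 p := by
  constructor
  · rintro ⟨hw, hmin⟩
    rw [le_aL_iff] at hw
    push Not at hw
    obtain ⟨t, ht⟩ := hw
    have := h.ntE t
    obtain ⟨a, ha⟩ := MA.exists_pt_le ht
    refine ⟨⟨t, a⟩, ?_⟩
    have h1 : j1 ⟨t, a⟩ ≤ w := (j1_le_iff _ _).mpr ha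
    by_contra hne
    exact j1_not_le_aL _ (hmin _ (lt_of_le_of_ne h1 (Ne.symm hne)))
  · rintro ⟨p, rfl⟩
    refine ⟨j1_not_le_aL p, fun u hu => ?_⟩
    have hnot : ¬ j1 p ≤ u := fun h' => absurd (hu.trans_le h') (lt_irrefl _)
    rw [j1_le_iff] at hnot
    rw [le_aL_iff]
    intro t
    have h1 : up u t ≤ upd p t := hu.le.2 t
    by_cases ht : t = p.1
    · subst ht
      rw [upd_self] at h1
      rcases hh : up u p.1 with _ | a | _
      · rfl
      · rw [hh] at h1 hnot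
        simp only [MA.pt_le_pt] at h1 hnot
        exact absurd h1.symm hnot
      · rw [hh] at h1
        exact absurd h1 (MA.not_top_le_pt _)
    · rw [upd_ne p ht] at h1
      exact (MA.le_bot_iff _).mp h1

theorem aL_le_iff (h : Ok D) (w : D.L) : aL ≤ w ↔ ∀ p, j0 p ≤ w := by
  constructor
  · intro hw p
    refine le_trans ?_ hw
    rw [j0_le_iff]
    exact MA.le_top _
  · intro hw
    rw [le_iff_gen h]
    exact ⟨fun p _ => hw p, fun p hp => absurd hp (j1_not_le_aL p)⟩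

section Aut

variable (h : Ok D) (φ : D.L ≃o D.L)

include h

theorem exists_perm0 : ∃ π : (Σ k, D.V k) ≃ (Σ k, D.V k), ∀ p, φ (j0 p) = j0 (π p) := by
  have h1 : ∀ (ψ : D.L ≃o D.L) p, ∃ q, ψ (j0 p) = j0 q := by
    intro ψ p
    rw [← isAtom_iff h, OrderIso.isAtom_iff, isAtom_iff h]
    exact ⟨p, rfl⟩
  choose F hF using h1 φ
  choose G hG using h1 φ.symm
  refine ⟨⟨F, G, fun p => ?_, fun p => ?_⟩, hF⟩
  · apply j0_injective; rw [← hG, ← hF]; simp
  · apply j0_injective; rw [← hF, ← hG]; simp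

theorem map_aL : φ aL = aL := by
  have key : ∀ (ψ : D.L ≃o D.L), aL ≤ ψ aL := by
    intro ψ
    rw [aL_le_iff h]
    obtain ⟨π, hπ⟩ := exists_perm0 h ψ
    intro p
    have h1 : ψ (j0 (π.symm p)) ≤ ψ aL :=
      ψ.monotone ((aL_le_iff h aL).mp le_rfl _)
    rw [hπ] at h1
    simpa using h1
  apply le_antisymm
  · have h1 := key φ.symm
    have h2 := φ.monotone h1
    simpa using h2
  · exact key φ

theorem exists_perm1 : ∃ π : (Σ t, D.E t) ≃ (Σ t, D.E t), ∀ p, φ (j1 p) = j1 (π p) := by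
  have h1 : ∀ (ψ : D.L ≃o D.L) p, ∃ q, ψ (j1 p) = j1 q := by
    intro ψ p
    rw [← min_iff h]
    obtain ⟨h2, h3⟩ := (min_iff h (j1 p)).mpr ⟨p, rfl⟩
    constructor
    · intro h4
      apply h2
      rw [← map_aL h ψ, ψ.le_iff_le] at h4
      exact h4
    · intro u hu
      have h5 : ψ.symm u < j1 p := by
        rw [← ψ.lt_iff_lt]; simpa using hu
      have h6 := ψ.monotone (h3 _ h5)
      rw [map_aL h ψ] at h6
      simpa using h6
  choose F hF using h1 φ
  choose G hG using h1 φ.symm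
  refine ⟨⟨F, G, fun p => ?_, fun p => ?_⟩, hF⟩
  · apply j1_injective; rw [← hG, ← hF]; simp
  · apply j1_injective; rw [← hF, ← hG]; simp

/-- Every automorphism is induced by permutations of the lines compatible with the maps. -/
theorem exists_perms : ∃ (π : ∀ k, D.V k → D.V k) (ρ : ∀ t, D.E t → D.E t),
    (∀ k v, φ (j0 ⟨k, v⟩) = j0 ⟨k, π k v⟩) ∧ (∀ t e, φ (j1 ⟨t, e⟩) = j1 ⟨t, ρ t e⟩) ∧
    (∀ k, Function.Bijective (π k)) ∧ (∀ t, Function.Bijective (ρ t)) ∧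
    (∀ t k e, π k (D.f t k e) = D.f t k (ρ t e)) := by
  obtain ⟨π, hπ⟩ := exists_perm0 h φ
  obtain ⟨ρ, hρ⟩ := exists_perm1 h φ
  have hπ1 := line_preserved j0 j0_line h.finV h.cV h.iV φ π hπ
  have hρ1 := line_preserved j1 j1_line h.finE h.cE h.iE φ ρ hρ
  have hπ2 : ∀ k v, ∃ v', π ⟨k, v⟩ = ⟨k, v'⟩ := by
    intro k v
    have := hπ1 ⟨k, v⟩
    rcases hh : π ⟨k, v⟩ with ⟨k', v'⟩
    rw [hh] at this
    simp only at this
    subst this
    exact ⟨v', rfl⟩
  have hρ2 : ∀ t e, ∃ e', ρ ⟨t, e⟩ = ⟨t, e'⟩ := by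
    intro t e
    have := hρ1 ⟨t, e⟩
    rcases hh : ρ ⟨t, e⟩ with ⟨t', e'⟩
    rw [hh] at this
    simp only at this
    subst this
    exact ⟨e', rfl⟩
  choose P hP using hπ2
  choose R hR using hρ2
  have e0 : ∀ k v, φ (j0 ⟨k, v⟩) = j0 ⟨k, P k v⟩ := by
    intro k v; rw [hπ, hP]
  have e1 : ∀ t e, φ (j1 ⟨t, e⟩) = j1 ⟨t, R t e⟩ := by
    intro t e; rw [hρ, hR]
  refine ⟨P, R, e0, e1, ?_, ?_, ?_⟩
  · intro k
    have := h.finV k
    refine Finite.injective_iff_bijective.mp ?_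
    intro v v' hv
    have h1 : j0 ⟨k, v⟩ = j0 ⟨k, v'⟩ := φ.injective (by rw [e0, e0, hv])
    have h2 := j0_injective h1
    simpa using h2
  · intro t
    have := h.finE t
    refine Finite.injective_iff_bijective.mp ?_
    intro v v' hv
    have h1 : j1 ⟨t, v⟩ = j1 ⟨t, v'⟩ := φ.injective (by rw [e1, e1, hv])
    have h2 := j1_injective h1
    simpa using h2
  · intro t k e
    have h1 : j0 ⟨k, D.f t k e⟩ ≤ j1 ⟨t, e⟩ := (j0_le_j1_iff _ _).mpr rfl
    rw [← φ.le_iff_le, e0, e1, j0_le_j1_iff] at h1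
    exact h1

theorem aut_ext (ψ : D.L ≃o D.L) (h0 : ∀ p, φ (j0 p) = ψ (j0 p))
    (h1 : ∀ p, φ (j1 p) = ψ (j1 p)) : φ = ψ := by
  have key : ∀ (φ ψ : D.L ≃o D.L), (∀ p, φ (j0 p) = ψ (j0 p)) → (∀ p, φ (j1 p) = ψ (j1 p)) →
      ∀ w, φ w ≤ ψ w := by
    intro φ ψ h0 h1 w
    obtain ⟨π, hπ⟩ := exists_perm0 h φ
    obtain ⟨ρ, hρ⟩ := exists_perm1 h φ
    rw [le_iff_gen h]
    constructor
    · intro p hp
      have e : j0 p = φ (j0 (π.symm p)) := by rw [hπ]; simp
      rw [e, φ.le_iff_le] at hp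
      rw [e, h0, ψ.le_iff_le]
      exact hp
    · intro p hp
      have e : j1 p = φ (j1 (ρ.symm p)) := by rw [hρ]; simp
      rw [e, φ.le_iff_le] at hp
      rw [e, h1, ψ.le_iff_le]
      exact hp
  ext w
  exact le_antisymm (key φ ψ h0 h1 w) (key ψ φ (fun p => (h0 p).symm) (fun p => (h1 p).symm) w)

end Aut

end LData

end Pool.Agent.H.MP_2de88f_co
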