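import Mathlib

set_option autoImplicit false

namespace Pool.Agent.H.MP_2de88f_co

/-- The lattice `M_A` of height two with set of atoms `A`. -/
inductive MA (A : Type) : Type
  | bot : MA A
  | pt : A → MA A
  | top : MA A

namespace MA

variable {A B C : Type}

/-- The order on `M_A`. -/
protected def Le : MA A → MA A → Prop
  | bot, _ => True
  | pt _, bot => False
  | pt a, pt b => a = b
  | pt _, top => True
  | top, bot => False
  | top, pt _ => False
  | top, top => True

open Classical in
/-- Join in `M_A`. -/
protected noncomputable def sup : MA A → MA A → MA A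
  | bot, y => y
  | pt a, bot => pt a
  | pt a, pt b => if a = b then pt a else top
  | pt _, top => top
  | top, _ => top

open Classical in
/-- Meet in `M_A`. -/
protected noncomputable def inf : MA A → MA A → MA A
  | top, y => y
  | pt a, top => pt a
  | pt a, pt b => if a = b then pt a else bot
  | pt _, bot => bot
  | bot, _ => bot

noncomputable instance : Lattice (MA A) where
  le := MA.Le
  le_refl := by rintro (_ | a | _) <;> simp [MA.Le]
  le_trans := by
    rintro (_ | a | _) (_ | b | _) (_ | c | _) <;> simp [MA.Le]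
    intro h1 h2; exact h1.trans h2
  le_antisymm := by
    rintro (_ | a | _) (_ | b | _) <;> simp [MA.Le]
    intro h1 _; exact h1
  sup := MA.sup
  inf := MA.inf
  le_sup_left := by
    rintro (_ | a | _) (_ | b | _) <;> simp [MA.Le, MA.sup]
    split_ifs <;> simp
  le_sup_right := by
    rintro (_ | a | _) (_ | b | _) <;> simp [MA.Le, MA.sup]
    split_ifs with h <;> simp [h]
  sup_le := by
    rintro (_ | a | _) (_ | b | _) (_ | c | _) <;> simp [MA.Le, MA.sup]
    · rintro h1 h2
      rw [if_pos (h1.trans h2.symm)]; exact h1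
    · split_ifs <;> simp [MA.Le]
  inf_le_left := by
    rintro (_ | a | _) (_ | b | _) <;> simp [MA.Le, MA.inf]
    split_ifs <;> simp
  inf_le_right := by
    rintro (_ | a | _) (_ | b | _) <;> simp [MA.Le, MA.inf]
    split_ifs with h <;> simp [h]
  le_inf := by
    rintro (_ | a | _) (_ | b | _) (_ | c | _) <;> simp [MA.Le, MA.inf]
    · rintro h1 h2
      rw [if_pos (h1.symm.trans h2)]; exact h1

@[simp] theorem bot_le (x : MA A) : bot ≤ x := by cases x <;> exact trivial
@[simp] theorem le_top (x : MA A) : x ≤ top := by cases x <;> exact trivial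
@[simp] theorem pt_le_pt (a b : A) : pt a ≤ pt b ↔ a = b := Iff.rfl
@[simp] theorem not_pt_le_bot (a : A) : ¬ pt a ≤ (bot : MA A) := fun h => h
@[simp] theorem not_top_le_bot : ¬ top ≤ (bot : MA A) := fun h => h
@[simp] theorem not_top_le_pt (a : A) : ¬ top ≤ (pt a : MA A) := fun h => h

theorem le_bot_iff (x : MA A) : x ≤ bot ↔ x = bot := by
  cases x <;> simp

@[simp] theorem bot_sup (x : MA A) : bot ⊔ x = x := rfl
@[simp] theorem sup_bot (x : MA A) : x ⊔ bot = x := by cases x <;> rfl
@[simp] theorem top_sup (x : MA A) : top ⊔ x = top := rfl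
@[simp] theorem sup_top (x : MA A) : x ⊔ top = top := by cases x <;> rfl
@[simp] theorem bot_inf (x : MA A) : bot ⊓ x = bot := rfl
@[simp] theorem inf_bot (x : MA A) : x ⊓ bot = bot := by cases x <;> rfl
@[simp] theorem top_inf (x : MA A) : top ⊓ x = x := rfl
@[simp] theorem inf_top (x : MA A) : x ⊓ top = x := by cases x <;> rfl
theorem pt_sup_pt_of_ne {a b : A} (h : a ≠ b) : (pt a : MA A) ⊔ pt b = top := by
  change MA.sup (pt a) (pt b) = top
  simp [MA.sup, h]
theorem pt_inf_pt_of_ne {a b : A} (h : a ≠ b) : (pt a : MA A) ⊓ pt b = bot := by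
  change MA.inf (pt a) (pt b) = bot
  simp [MA.inf, h]

/-- `M_A` is modular. -/
theorem modular (x y z : MA A) (h : x ≤ z) : (x ⊔ y) ⊓ z ≤ x ⊔ (y ⊓ z) := by
  rcases x with _ | a | _
  · simp
  · rcases z with _ | c | _
    · exact absurd h (not_pt_le_bot a)
    · have hac : a = c := h
      subst hac
      exact inf_le_right.trans le_sup_left
    · simp
  · simp

/-- The map `M_A → M_B` induced by a map `A → B`. -/
def map (f : A → B) : MA A → MA B
  | bot => bot
  | pt a => pt (f a)
  | top => top

@[simp] theorem map_bot (f : A → B) : map f bot = bot := rfl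
@[simp] theorem map_pt (f : A → B) (a : A) : map f (pt a) = pt (f a) := rfl
@[simp] theorem map_top (f : A → B) : map f top = top := rfl

theorem map_mono (f : A → B) : Monotone (map f) := by
  rintro (_ | a | _) (_ | b | _) h <;> simp_all

theorem map_sup {f : A → B} (hf : Function.Injective f) (x y : MA A) :
    map f (x ⊔ y) = map f x ⊔ map f y := by
  rcases x with _ | a | _ <;> rcases y with _ | b | _ <;> simp
  by_cases h : a = b
  · subst h; simp
  · rw [pt_sup_pt_of_ne h, pt_sup_pt_of_ne (hf.ne h)]; rfl

theorem map_inf {f : A → B} (hf : Function.Injective f) (x y : MA A) :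
    map f (x ⊓ y) = map f x ⊓ map f y := by
  rcases x with _ | a | _ <;> rcases y with _ | b | _ <;> simp
  by_cases h : a = b
  · subst h; simp
  · rw [pt_inf_pt_of_ne h, pt_inf_pt_of_ne (hf.ne h)]; rfl

theorem map_map (g : B → C) (f : A → B) (x : MA A) : map g (map f x) = map (g ∘ f) x := by
  cases x <;> rfl

theorem map_id (x : MA A) : map id x = x := by
  cases x <;> rfl

/-- The rank function on `M_A`. -/
def rk : MA A → ℕ
  | bot => 0
  | pt _ => 1
  | top => 2

theorem rk_le_two (x : MA A) : rk x ≤ 2 := by cases x <;> simp [rk]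

theorem rk_mono : Monotone (rk (A := A)) := by
  rintro (_ | a | _) (_ | b | _) h <;> simp_all [rk]

theorem eq_of_le_of_rk {x y : MA A} (h : x ≤ y) (h' : rk y ≤ rk x) : x = y := by
  rcases x with _ | a | _ <;> rcases y with _ | b | _ <;> simp_all [rk]

theorem le_iff_of_two [Nontrivial A] (x y : MA A) : x ≤ y ↔ ∀ a, pt a ≤ x → pt a ≤ y := by
  constructor
  · intro h a ha; exact ha.trans h
  · intro h
    rcases x with _ | a | _
    · simp
    · exact h a le_rfl
    · rcases y with _ | b | _
      · obtain ⟨a⟩ := (inferInstance : Nonempty A)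
        exact absurd (h a (by simp)) (by simp)
      · obtain ⟨a, ha⟩ := exists_ne b
        exact absurd (h a (by simp)) (by simpa using ha)
      · simp

theorem exists_pt_le [Nonempty A] {x : MA A} (h : x ≠ bot) : ∃ a, pt a ≤ x := by
  rcases x with _ | a | _
  · exact absurd rfl h
  · exact ⟨a, le_rfl⟩
  · obtain ⟨a⟩ := (inferInstance : Nonempty A)
    exact ⟨a, by simp⟩

instance [Finite A] : Finite (MA A) := by
  have : Function.Surjective (fun o : Option (Option A) =>
      match o with
      | none => (bot : MA A)
      | some none => top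
      | some (some a) => pt a) := by
    rintro (_ | a | _)
    · exact ⟨none, rfl⟩
    · exact ⟨some (some a), rfl⟩
    · exact ⟨some none, rfl⟩
  exact Finite.of_surjective _ this

end MA

end Pool.Agent.H.MP_2de88f_co
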