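import Pool.Agent.H.MP_2de88f_co.Auto

set_option autoImplicit false

namespace Pool.Agent.H.MP_2de88f_co

namespace LData

variable {D : LData}

/-- The self-map of the lattice induced by compatible permutations of the lines. -/
def actFun (π : ∀ k, D.V k ≃ D.V k) (ρ : ∀ t, D.E t ≃ D.E t)
    (hc : ∀ t k e, π k (D.f t k e) = D.f t k (ρ t e)) (w : D.L) : D.L :=
  ⟨(fun k => MA.map (π k) (lo w k), fun t => MA.map (ρ t) (up w t)), by
    intro t k
    change MA.map (D.f t k) (MA.map (ρ t) (up w t)) ≤ MA.map (π k) (lo w k)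
    have h1 : MA.map (D.f t k) (MA.map (ρ t) (up w t)) =
        MA.map (π k) (MA.map (D.f t k) (up w t)) := by
      rw [MA.map_map, MA.map_map]
      congr 1
      funext e
      exact (hc t k e).symm
    rw [h1]
    exact MA.map_mono _ (map_up_le_lo w t k)⟩

theorem actFun_mono (π : ∀ k, D.V k ≃ D.V k) (ρ : ∀ t, D.E t ≃ D.E t)
    (hc : ∀ t k e, π k (D.f t k e) = D.f t k (ρ t e)) : Monotone (actFun π ρ hc) := by
  intro x y h
  exact ⟨fun k => MA.map_mono _ (h.1 k), fun t => MA.map_mono _ (h.2 t)⟩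

theorem hc_symm (π : ∀ k, D.V k ≃ D.V k) (ρ : ∀ t, D.E t ≃ D.E t)
    (hc : ∀ t k e, π k (D.f t k e) = D.f t k (ρ t e)) :
    ∀ t k e, (π k).symm (D.f t k e) = D.f t k ((ρ t).symm e) := by
  intro t k e
  rw [Equiv.symm_apply_eq, hc, Equiv.apply_symm_apply]

theorem actFun_symm (π : ∀ k, D.V k ≃ D.V k) (ρ : ∀ t, D.E t ≃ D.E t)
    (hc : ∀ t k e, π k (D.f t k e) = D.f t k (ρ t e))
    (hc' : ∀ t k e, (π k).symm (D.f t k e) = D.f t k ((ρ t).symm e)) (w : D.L) :
    actFun (fun k => (π k).symm) (fun t => (ρ t).symm) hc' (actFun π ρ hc w) = w := by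
  refine ext (fun k => ?_) (fun t => ?_)
  · change MA.map ((π k).symm) (MA.map (π k) (lo w k)) = lo w k
    rw [MA.map_map]
    have : (π k).symm ∘ (π k) = id := by funext x; simp
    rw [this, MA.map_id]
  · change MA.map ((ρ t).symm) (MA.map (ρ t) (up w t)) = up w t
    rw [MA.map_map]
    have : (ρ t).symm ∘ (ρ t) = id := by funext x; simp
    rw [this, MA.map_id]

theorem actFun_symm' (π : ∀ k, D.V k ≃ D.V k) (ρ : ∀ t, D.E t ≃ D.E t)
    (hc : ∀ t k e, π k (D.f t k e) = D.f t k (ρ t e))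
    (hc' : ∀ t k e, (π k).symm (D.f t k e) = D.f t k ((ρ t).symm e)) (w : D.L) :
    actFun π ρ hc (actFun (fun k => (π k).symm) (fun t => (ρ t).symm) hc' w) = w := by
  refine ext (fun k => ?_) (fun t => ?_)
  · change MA.map (π k) (MA.map (π k).symm (lo w k)) = lo w k
    rw [MA.map_map]
    have : (π k) ∘ (π k).symm = id := by funext x; simp
    rw [this, MA.map_id]
  · change MA.map (ρ t) (MA.map (ρ t).symm (up w t)) = up w t
    rw [MA.map_map]
    have : (ρ t) ∘ (ρ t).symm = id := by funext x; simp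
    rw [this, MA.map_id]

/-- The automorphism induced by compatible permutations of the lines. -/
def isoOf (π : ∀ k, D.V k ≃ D.V k) (ρ : ∀ t, D.E t ≃ D.E t)
    (hc : ∀ t k e, π k (D.f t k e) = D.f t k (ρ t e)) : D.L ≃o D.L where
  toFun := actFun π ρ hc
  invFun := actFun (fun k => (π k).symm) (fun t => (ρ t).symm) (hc_symm π ρ hc)
  left_inv := actFun_symm π ρ hc _
  right_inv := actFun_symm' π ρ hc _
  map_rel_iff' := by
    intro x y
    constructor
    · intro h
      have h1 := actFun_mono (fun k => (π k).symm) (fun t => (ρ t).symm) (hc_symm π ρ hc) h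
      simp only [Equiv.coe_fn_mk] at h1
      rwa [actFun_symm, actFun_symm] at h1
    · intro h; exact actFun_mono π ρ hc h

theorem map_upd {K : Type} {A B : K → Type} (F : ∀ k, A k → B k) (k : K) (v : A k) (k' : K) :
    MA.map (F k') (upd ⟨k, v⟩ k') = upd ⟨k, F k v⟩ k' := by
  by_cases h : k' = k
  · subst h
    rw [upd_self ⟨k', v⟩, upd_self ⟨k', F k' v⟩]; rfl
  · rw [upd_ne ⟨k, v⟩ h, upd_ne ⟨k, F k v⟩ h]; rfl

theorem isoOf_j0 (π : ∀ k, D.V k ≃ D.V k) (ρ : ∀ t, D.E t ≃ D.E t)
    (hc : ∀ t k e, π k (D.f t k e) = D.f t k (ρ t e)) (k : D.K0) (v : D.V k) :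
    isoOf π ρ hc (j0 ⟨k, v⟩) = j0 ⟨k, π k v⟩ := by
  refine ext (fun k' => ?_) (fun t => rfl)
  exact map_upd (fun k => (π k : D.V k → D.V k)) k v k'

theorem isoOf_j1 (π : ∀ k, D.V k ≃ D.V k) (ρ : ∀ t, D.E t ≃ D.E t)
    (hc : ∀ t k e, π k (D.f t k e) = D.f t k (ρ t e)) (t : D.K1) (e : D.E t) :
    isoOf π ρ hc (j1 ⟨t, e⟩) = j1 ⟨t, ρ t e⟩ := by
  refine ext (fun k => ?_) (fun t' => ?_)
  · change MA.pt (π k (D.f t k e)) = MA.pt (D.f t k (ρ t e))
    rw [hc]
  · exact map_upd (fun t => (ρ t : D.E t → D.E t)) t e t'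

end LData

section Group

variable (G : Type) [Group G] (n : ℕ) (e : ℕ → G)

/-- number of levels in the lower lines -/
def aa : Bool → ℕ
  | false => n + 4
  | true => n + 3

/-- number of levels in the upper lines -/
def bb : Fin 3 → ℕ
  | 0 => n + 3
  | 1 => n + 2
  | 2 => n + 1

/-- the maps between levels -/
def mm : Fin 3 → Bool → ℕ → ℕ
  | 0, _, c => c
  | 1, false, c => c + 1
  | 1, true, c => c
  | 2, false, c => if c < n then c else n + 3
  | 2, true, c => if c < n then c else n + 2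

variable {G} in
/-- the voltages -/
def lam : Fin 3 → Bool → ℕ → G
  | 2, true, c => e c
  | _, _, _ => 1

theorem mm_lt (t : Fin 3) (k : Bool) (c : ℕ) (hc : c < bb n t) : mm n t k c < aa n k := by
  fin_cases t <;> cases k <;> simp only [mm, aa, bb] at * <;> (try split_ifs) <;> omega

theorem mm_inj (t : Fin 3) (k : Bool) (c c' : ℕ) (hc : c < bb n t) (hc' : c' < bb n t)
    (h : mm n t k c = mm n t k c') : c = c' := by
  fin_cases t <;> cases k <;> simp only [mm, bb] at * <;> (try split_ifs at h) <;> omega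

/-- The data attached to a group with an enumeration. -/
def gdata : LData where
  K0 := Bool
  K1 := Fin 3
  V := fun k => G × Fin (aa n k)
  E := fun t => G × Fin (bb n t)
  f := fun t k x => (x.1 * lam e t k x.2, ⟨mm n t k x.2, mm_lt n t k _ x.2.2⟩)
  inj := by
    rintro t k ⟨g, c⟩ ⟨g', c'⟩ h
    simp only [Prod.mk.injEq, Fin.mk.injEq] at h
    have h1 : c = c' := Fin.ext (mm_inj n t k c c' c.2 c'.2 h.2)
    subst h1
    have h2 : g = g' := mul_right_cancel h.1
    rw [h2]

theorem gdata_ok [Finite G] (hn : 3 ≤ n) : LData.Ok (gdata G n e) where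
  ne := ⟨false⟩
  finK0 := inferInstanceAs (Finite Bool)
  finK1 := inferInstanceAs (Finite (Fin 3))
  finV := fun k => inferInstanceAs (Finite (G × Fin (aa n k)))
  finE := fun t => inferInstanceAs (Finite (G × Fin (bb n t)))
  cV := by
    intro k
    change 3 ≤ Nat.card (G × Fin (aa n k))
    rw [Nat.card_prod, Nat.card_eq_fintype_card (α := Fin (aa n k)), Fintype.card_fin]
    have h1 : 1 ≤ Nat.card G := Nat.card_pos
    have h2 : 3 ≤ aa n k := by cases k <;> simp only [aa] <;> omega
    calc 3 ≤ aa n k := h2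
      _ ≤ Nat.card G * aa n k := Nat.le_mul_of_pos_left _ h1
  cE := by
    intro t
    change Fin 3 at t
    change 3 ≤ Nat.card (G × Fin (bb n t))
    rw [Nat.card_prod, Nat.card_eq_fintype_card (α := Fin (bb n t)), Fintype.card_fin]
    have h1 : 1 ≤ Nat.card G := Nat.card_pos
    have h2 : 3 ≤ bb n t := by fin_cases t <;> simp only [bb] <;> omega
    calc 3 ≤ bb n t := h2
      _ ≤ Nat.card G * bb n t := Nat.le_mul_of_pos_left _ h1
  iV := by
    intro k k' h
    change Nat.card (G × Fin (aa n k)) = Nat.card (G × Fin (aa n k')) at h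
    rw [Nat.card_prod, Nat.card_prod, Nat.card_eq_fintype_card (α := Fin (aa n k)),
      Nat.card_eq_fintype_card (α := Fin (aa n k')), Fintype.card_fin, Fintype.card_fin] at h
    have h1 : 0 < Nat.card G := Nat.card_pos
    have h2 := Nat.eq_of_mul_eq_mul_left h1 h
    change Bool at k
    change Bool at k'
    cases k <;> cases k' <;> simp only [aa] at h2 <;> first | rfl | omega
  iE := by
    intro k k' h
    change Nat.card (G × Fin (bb n k)) = Nat.card (G × Fin (bb n k')) at h
    rw [Nat.card_prod, Nat.card_prod, Nat.card_eq_fintype_card (α := Fin (bb n k)),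
      Nat.card_eq_fintype_card (α := Fin (bb n k')), Fintype.card_fin, Fintype.card_fin] at h
    have h1 : 0 < Nat.card G := Nat.card_pos
    have h2 := Nat.eq_of_mul_eq_mul_left h1 h
    change Fin 3 at k
    change Fin 3 at k'
    fin_cases k <;> fin_cases k' <;> simp only [bb] at h2 <;> first | rfl | omega

variable {G} in
/-- left multiplication on a line -/
def lmul (m : ℕ) (h : G) : G × Fin m ≃ G × Fin m := Equiv.prodCongr (Equiv.mulLeft h) (Equiv.refl _)

theorem lmul_apply (m : ℕ) (h : G) (x : G × Fin m) : lmul m h x = (h * x.1, x.2) := rfl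

theorem gcompat (h : G) (t : Fin 3) (k : Bool) (x : G × Fin (bb n t)) :
    lmul (aa n k) h ((gdata G n e).f t k x) = (gdata G n e).f t k (lmul (bb n t) h x) := by
  change (h * (x.1 * lam e t k x.2), _) = ((h * x.1) * lam e t k x.2, _)
  rw [mul_assoc]
  rfl

/-- The automorphism attached to a group element. -/
def gaut (h : G) : (gdata G n e).L ≃o (gdata G n e).L :=
  LData.isoOf (D := gdata G n e) (fun k => lmul (aa n k) h) (fun t => lmul (bb n t) h)
    (gcompat G n e h)

theorem gaut_j0 (h : G) (k : Bool) (x : G × Fin (aa n k)) :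
    gaut G n e h (LData.j0 (D := gdata G n e) ⟨k, x⟩) =
      LData.j0 (D := gdata G n e) ⟨k, (h * x.1, x.2)⟩ :=
  LData.isoOf_j0 _ _ _ _ _

theorem gaut_j1 (h : G) (t : Fin 3) (x : G × Fin (bb n t)) :
    gaut G n e h (LData.j1 (D := gdata G n e) ⟨t, x⟩) =
      LData.j1 (D := gdata G n e) ⟨t, (h * x.1, x.2)⟩ :=
  LData.isoOf_j1 _ _ _ _ _

/-- The homomorphism from the group to the automorphism group. -/
def ghom [Finite G] (hn : 3 ≤ n) : G →* ((gdata G n e).L ≃o (gdata G n e).L) where
  toFun := gaut G n e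
  map_one' := by
    apply LData.aut_ext (gdata_ok G n e hn)
    · rintro ⟨k, x⟩
      refine (gaut_j0 G n e 1 k x).trans ?_
      rw [one_mul]; rfl
    · rintro ⟨k, x⟩
      refine (gaut_j1 G n e 1 k x).trans ?_
      rw [one_mul]; rfl
  map_mul' := by
    intro g h
    apply LData.aut_ext (gdata_ok G n e hn)
    · rintro ⟨k, x⟩
      refine (gaut_j0 G n e (g * h) k x).trans ?_
      refine Eq.trans ?_ (congrArg (gaut G n e g) (gaut_j0 G n e h k x)).symm
      refine Eq.trans ?_ (gaut_j0 G n e g k (h * x.1, x.2)).symm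
      rw [mul_assoc]
    · rintro ⟨k, x⟩
      refine (gaut_j1 G n e (g * h) k x).trans ?_
      refine Eq.trans ?_ (congrArg (gaut G n e g) (gaut_j1 G n e h k x)).symm
      refine Eq.trans ?_ (gaut_j1 G n e g k (h * x.1, x.2)).symm
      rw [mul_assoc]

theorem ghom_injective [Finite G] (hn : 3 ≤ n) : Function.Injective (ghom G n e hn) := by
  intro g h hgh
  have h1 : gaut G n e g (LData.j0 (D := gdata G n e) ⟨false, ((1 : G), (0 : Fin (n + 4)))⟩) =
      gaut G n e h (LData.j0 (D := gdata G n e) ⟨false, ((1 : G), (0 : Fin (n + 4)))⟩) :=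
    congrArg (fun φ : (gdata G n e).L ≃o (gdata G n e).L =>
      φ (LData.j0 (D := gdata G n e) ⟨false, ((1 : G), (0 : Fin (n + 4)))⟩)) hgh
  rw [gaut_j0, gaut_j0] at h1
  have h2 := eq_of_heq (Sigma.mk.inj (LData.j0_injective h1)).2
  have h3 : g * 1 = h * 1 := congrArg Prod.fst h2
  simpa using h3

end Group

end Pool.Agent.H.MP_2de88f_co
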