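import Pool.Agent.H.MP_2de88f_co.Basic

set_option autoImplicit false

namespace Pool.Agent.H.MP_2de88f_co

/-- Two families of finite sets (lower lines `V k`, upper lines `E t`) and injections
`f t k : E t → V k`. -/
structure LData where
  K0 : Type
  K1 : Type
  V : K0 → Type
  E : K1 → Type
  f : ∀ t k, E t → V k
  inj : ∀ t k, Function.Injective (f t k)

namespace LData

variable (D : LData)

/-- The ambient product of lattices of height two. -/
abbrev Amb : Type := (∀ k, MA (D.V k)) × (∀ t, MA (D.E t))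

/-- The condition cutting out the sublattice. -/
def Good (w : D.Amb) : Prop := ∀ t k, MA.map (D.f t k) (w.2 t) ≤ w.1 k

/-- The lattice attached to the data. -/
def L : Type := {w : D.Amb // D.Good w}

theorem good_sup ⦃x y : D.Amb⦄ (hx : D.Good x) (hy : D.Good y) : D.Good (x ⊔ y) := by
  intro t k
  have : MA.map (D.f t k) ((x ⊔ y).2 t) =
      MA.map (D.f t k) (x.2 t) ⊔ MA.map (D.f t k) (y.2 t) := MA.map_sup (D.inj t k) _ _
  rw [this]
  exact sup_le_sup (hx t k) (hy t k)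

theorem good_inf ⦃x y : D.Amb⦄ (hx : D.Good x) (hy : D.Good y) : D.Good (x ⊓ y) := by
  intro t k
  have : MA.map (D.f t k) ((x ⊓ y).2 t) =
      MA.map (D.f t k) (x.2 t) ⊓ MA.map (D.f t k) (y.2 t) := MA.map_inf (D.inj t k) _ _
  rw [this]
  exact inf_le_inf (hx t k) (hy t k)

noncomputable instance : Lattice D.L := Subtype.lattice D.good_sup D.good_inf

variable {D}

/-- lower coordinate -/
def lo (w : D.L) (k : D.K0) : MA (D.V k) := w.1.1 k
/-- upper coordinate -/
def up (w : D.L) (t : D.K1) : MA (D.E t) := w.1.2 t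

theorem map_up_le_lo (w : D.L) (t : D.K1) (k : D.K0) : MA.map (D.f t k) (up w t) ≤ lo w k :=
  w.2 t k

theorem le_def (x y : D.L) : x ≤ y ↔ (∀ k, lo x k ≤ lo y k) ∧ (∀ t, up x t ≤ up y t) := Iff.rfl

theorem ext {x y : D.L} (h0 : ∀ k, lo x k = lo y k) (h1 : ∀ t, up x t = up y t) : x = y :=
  Subtype.ext (Prod.ext (funext h0) (funext h1))

theorem lo_sup (x y : D.L) (k : D.K0) : lo (x ⊔ y) k = lo x k ⊔ lo y k := rfl
theorem up_sup (x y : D.L) (t : D.K1) : up (x ⊔ y) t = up x t ⊔ up y t := rfl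
theorem lo_inf (x y : D.L) (k : D.K0) : lo (x ⊓ y) k = lo x k ⊓ lo y k := rfl
theorem up_inf (x y : D.L) (t : D.K1) : up (x ⊓ y) t = up x t ⊓ up y t := rfl

instance : IsModularLattice D.L where
  sup_inf_le_assoc_of_le := by
    intro x y z h
    refine ⟨fun k => ?_, fun t => ?_⟩
    · exact MA.modular (lo x k) (lo y k) (lo z k) (h.1 k)
    · exact MA.modular (up x t) (up y t) (up z t) (h.2 t)

instance : Nonempty D.L := ⟨⟨(fun _ => MA.bot, fun _ => MA.bot), fun _ _ => MA.bot_le _⟩⟩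

instance [Finite D.K0] [Finite D.K1] [∀ k, Finite (D.V k)] [∀ t, Finite (D.E t)] :
    Finite D.L := by
  unfold L
  infer_instance

/-- rank of an element -/
noncomputable def rk [Fintype D.K0] [Fintype D.K1] (w : D.L) : ℕ :=
  ∑ k, MA.rk (lo w k) + ∑ t, MA.rk (up w t)

theorem rk_strictMono [Fintype D.K0] [Fintype D.K1] : StrictMono (rk (D := D)) := by
  intro x y hxy
  have hle : x ≤ y := hxy.le
  have h0 : ∑ k, MA.rk (lo x k) ≤ ∑ k, MA.rk (lo y k) :=
    Finset.sum_le_sum fun k _ => MA.rk_mono (hle.1 k)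
  have h1 : ∑ t, MA.rk (up x t) ≤ ∑ t, MA.rk (up y t) :=
    Finset.sum_le_sum fun t _ => MA.rk_mono (hle.2 t)
  by_contra hcon
  have hcon' : ∑ k, MA.rk (lo y k) + ∑ t, MA.rk (up y t) ≤
      ∑ k, MA.rk (lo x k) + ∑ t, MA.rk (up x t) := not_lt.mp hcon
  have e0 : ∑ k, MA.rk (lo x k) = ∑ k, MA.rk (lo y k) := by omega
  have e1 : ∑ t, MA.rk (up x t) = ∑ t, MA.rk (up y t) := by omega
  have e0' := (Finset.sum_eq_sum_iff_of_le (fun k _ => MA.rk_mono (hle.1 k))).mp e0
  have e1' := (Finset.sum_eq_sum_iff_of_le (fun t _ => MA.rk_mono (hle.2 t))).mp e1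
  apply hxy.ne
  refine ext (fun k => ?_) (fun t => ?_)
  · exact MA.eq_of_le_of_rk (hle.1 k) (e0' k (Finset.mem_univ k)).ge
  · exact MA.eq_of_le_of_rk (hle.2 t) (e1' t (Finset.mem_univ t)).ge

theorem rk_le [Fintype D.K0] [Fintype D.K1] (w : D.L) :
    rk w ≤ 2 * Fintype.card D.K0 + 2 * Fintype.card D.K1 := by
  have h0 : ∑ k, MA.rk (lo w k) ≤ ∑ _k : D.K0, 2 := Finset.sum_le_sum fun k _ => MA.rk_le_two _
  have h1 : ∑ t, MA.rk (up w t) ≤ ∑ _t : D.K1, 2 := Finset.sum_le_sum fun t _ => MA.rk_le_two _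
  simp only [Finset.sum_const, Finset.card_univ, smul_eq_mul] at h0 h1
  unfold rk
  omega

theorem krullDim_le [Fintype D.K0] [Fintype D.K1] (h : ℕ)
    (hh : 2 * Fintype.card D.K0 + 2 * Fintype.card D.K1 ≤ h) :
    Order.krullDim D.L ≤ (h : WithBot ℕ∞) := by
  refine iSup_le fun p => ?_
  have key : ∀ i : ℕ, ∀ hi : i ≤ p.length, i ≤ rk (p ⟨i, Nat.lt_succ_of_le hi⟩) := by
    intro i
    induction i with
    | zero => intro _; exact Nat.zero_le _
    | succ i ih =>
      intro hi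
      have h1 := ih (by omega)
      have h2 : p ⟨i, by omega⟩ < p ⟨i + 1, by omega⟩ := p.strictMono (by
        rw [Fin.lt_def]; exact Nat.lt_succ_self i)
      have h3 := rk_strictMono h2
      omega
  have h1 := key p.length le_rfl
  have h2 := rk_le (p ⟨p.length, Nat.lt_succ_of_le le_rfl⟩)
  have h3 : p.length ≤ h := by omega
  exact_mod_cast h3

end LData

end Pool.Agent.H.MP_2de88f_co
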