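import Pool.Agent.H.MP_2de88f_co.Lat

set_option autoImplicit false

namespace Pool.Agent.H.MP_2de88f_co

section Lines

variable {K : Type} {A : K → Type}

open Classical in
/-- The family equal to `pt v` at `k` and to `bot` elsewhere. -/
noncomputable def upd (p : Σ k, A k) : ∀ k, MA (A k) :=
  Function.update (fun _ => MA.bot) p.1 (MA.pt p.2)

theorem upd_self (p : Σ k, A k) : upd p p.1 = MA.pt p.2 := by
  simp [upd]

theorem upd_ne (p : Σ k, A k) {k : K} (h : k ≠ p.1) : upd p k = MA.bot := by
  simp [upd, h]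

theorem upd_le_iff (p : Σ k, A k) (w : ∀ k, MA (A k)) :
    (∀ k, upd p k ≤ w k) ↔ MA.pt p.2 ≤ w p.1 := by
  constructor
  · intro h; have := h p.1; rwa [upd_self] at this
  · intro h k
    by_cases hk : k = p.1
    · subst hk; rwa [upd_self]
    · rw [upd_ne p hk]; exact MA.bot_le _

theorem upd_line (a b c : Σ k, A k) (hab : a ≠ b) (hca : c ≠ a) (hcb : c ≠ b) :
    MA.pt c.2 ≤ upd a c.1 ⊔ upd b c.1 ↔ (a.1 = b.1 ∧ c.1 = a.1) := by
  constructor
  · intro h
    by_cases h1 : c.1 = a.1
    · by_cases h2 : c.1 = b.1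
      · exact ⟨h1.symm.trans h2, h1⟩
      · exfalso
        rw [upd_ne b h2, MA.sup_bot] at h
        obtain ⟨ck, cv⟩ := c
        obtain ⟨ak, av⟩ := a
        simp only at h1
        subst h1
        rw [upd_self] at h
        simp only [MA.pt_le_pt] at h
        subst h
        exact hca rfl
    · exfalso
      rw [upd_ne a h1, MA.bot_sup] at h
      by_cases h2 : c.1 = b.1
      · obtain ⟨ck, cv⟩ := c
        obtain ⟨bk, bv⟩ := b
        simp only at h2
        subst h2
        rw [upd_self] at h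
        simp only [MA.pt_le_pt] at h
        subst h
        exact hcb rfl
      · rw [upd_ne b h2] at h
        exact MA.not_pt_le_bot _ h
  · rintro ⟨h1, h2⟩
    obtain ⟨ck, cv⟩ := c
    obtain ⟨bk, bv⟩ := b
    obtain ⟨ak, av⟩ := a
    simp only at h1 h2
    subst h1
    subst h2
    rw [upd_self ⟨ck, av⟩, upd_self ⟨ck, bv⟩]
    have : av ≠ bv := fun h => hab (by rw [h])
    rw [MA.pt_sup_pt_of_ne this]
    exact MA.le_top _

/-- `b` is on the line of `a`. -/
def Rel {L : Type} [Lattice L] (j : (Σ k, A k) → L) (a b : Σ k, A k) : Prop :=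
  a = b ∨ ∃ c, c ≠ a ∧ c ≠ b ∧ j c ≤ j a ⊔ j b

theorem rel_iff {L : Type} [Lattice L] (j : (Σ k, A k) → L)
    (hline : ∀ a b c : Σ k, A k, a ≠ b → c ≠ a → c ≠ b →
      (j c ≤ j a ⊔ j b ↔ (a.1 = b.1 ∧ c.1 = a.1)))
    (hfin : ∀ k, Finite (A k))
    (hcard : ∀ k, 3 ≤ Nat.card (A k)) (a b : Σ k, A k) :
    Rel j a b ↔ b.1 = a.1 := by
  constructor
  · rintro (h | ⟨c, hca, hcb, h⟩)
    · rw [h]
    · by_cases hab : a = b
      · rw [hab]
      · exact ((hline a b c hab hca hcb).mp h).1.symm
  · intro h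
    by_cases hab : a = b
    · exact Or.inl hab
    · right
      obtain ⟨ak, av⟩ := a
      obtain ⟨bk, bv⟩ := b
      simp only at h
      subst h
      have : ∃ c : A bk, c ≠ av ∧ c ≠ bv := by
        classical
        by_contra hcon
        push Not at hcon
        have := hfin bk
        have hs : (Set.univ : Set (A bk)) ⊆ {av, bv} := by
          intro x _
          by_cases hx : x = av
          · left; exact hx
          · right; exact hcon x hx
        have h1 : (Set.univ : Set (A bk)).ncard ≤ ({av, bv} : Set (A bk)).ncard :=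
          Set.ncard_le_ncard hs (Set.toFinite _)
        rw [Set.ncard_univ] at h1
        have h2 : ({av, bv} : Set (A bk)).ncard ≤ 2 := by
          refine (Set.ncard_insert_le _ _).trans ?_
          rw [Set.ncard_singleton]
        have h3 := hcard bk
        omega
      obtain ⟨c, hc1, hc2⟩ := this
      have n1 : (⟨bk, c⟩ : Σ k, A k) ≠ ⟨bk, av⟩ := by
        intro h; apply hc1; simpa using h
      have n2 : (⟨bk, c⟩ : Σ k, A k) ≠ ⟨bk, bv⟩ := by
        intro h; apply hc2; simpa using h
      exact ⟨⟨bk, c⟩, n1, n2, (hline _ _ _ hab n1 n2).mpr ⟨rfl, rfl⟩⟩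

theorem ncard_fiber (k : K) :
    ({b : Σ k, A k | b.1 = k}).ncard = Nat.card (A k) := by
  have : {b : Σ k, A k | b.1 = k} = Set.range (Sigma.mk k) := by
    ext ⟨k', v⟩
    constructor
    · rintro h
      have h' : k' = k := h
      subst h'
      exact ⟨v, rfl⟩
    · rintro ⟨v', h⟩
      have := congrArg Sigma.fst h
      exact this.symm
  rw [this, ← Set.image_univ, Set.ncard_image_of_injective _ sigma_mk_injective, Set.ncard_univ]

theorem line_preserved {L : Type} [Lattice L] (j : (Σ k, A k) → L)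
    (hline : ∀ a b c : Σ k, A k, a ≠ b → c ≠ a → c ≠ b →
      (j c ≤ j a ⊔ j b ↔ (a.1 = b.1 ∧ c.1 = a.1)))
    (hfin : ∀ k, Finite (A k))
    (hcard : ∀ k, 3 ≤ Nat.card (A k)) (hinj : Function.Injective fun k => Nat.card (A k))
    (φ : L ≃o L) (π : (Σ k, A k) ≃ (Σ k, A k)) (hπ : ∀ a, φ (j a) = j (π a))
    (a : Σ k, A k) : (π a).1 = a.1 := by
  have hrel : ∀ a b, Rel j (π a) (π b) ↔ Rel j a b := by
    intro a b
    unfold Rel
    constructor
    · rintro (h | ⟨c, hca, hcb, h⟩)
      · exact Or.inl (π.injective h)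
      · right
        refine ⟨π.symm c, ?_, ?_, ?_⟩
        · intro h'; apply hca; rw [← h']; simp
        · intro h'; apply hcb; rw [← h']; simp
        · rw [← φ.le_iff_le, map_sup, hπ, hπ, hπ]; simpa using h
    · rintro (h | ⟨c, hca, hcb, h⟩)
      · exact Or.inl (by rw [h])
      · right
        refine ⟨π c, π.injective.ne hca, π.injective.ne hcb, ?_⟩
        rw [← hπ, ← hπ, ← hπ, ← map_sup, φ.le_iff_le]; exact h
  have himg : π '' {b : Σ k, A k | b.1 = a.1} = {b : Σ k, A k | b.1 = (π a).1} := by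
    ext b
    constructor
    · rintro ⟨b', hb', rfl⟩
      have : Rel j a b' := (rel_iff j hline hfin hcard _ _).mpr hb'
      exact (rel_iff j hline hfin hcard _ _).mp ((hrel _ _).mpr this)
    · intro hb
      refine ⟨π.symm b, ?_, by simp⟩
      have h1 : Rel j (π a) b := (rel_iff j hline hfin hcard _ _).mpr hb
      have h2 : Rel j (π a) (π (π.symm b)) := by simpa using h1
      exact (rel_iff j hline hfin hcard _ _).mp ((hrel _ _).mp h2)
  have hc : ({b : Σ k, A k | b.1 = a.1}).ncard = ({b : Σ k, A k | b.1 = (π a).1}).ncard := by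
    rw [← himg, Set.ncard_image_of_injective _ π.injective]
  rw [ncard_fiber, ncard_fiber] at hc
  exact (hinj hc).symm

end Lines

end Pool.Agent.H.MP_2de88f_co
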