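import Pool.Agent.H.MP_2de88f_co.Grp

set_option autoImplicit false

namespace Pool.Agent.H.MP_2de88f_co

section Group

variable (G : Type) [Group G] (n : ℕ) (e : ℕ → G)

/-- If the permutation of the lower lines is a left multiplication, so is that of the upper
lines. -/
theorem perm_key (π : ∀ k : Bool, G × Fin (aa n k) → G × Fin (aa n k))
    (ρ : ∀ t : Fin 3, G × Fin (bb n t) → G × Fin (bb n t))
    (hπ : ∀ k, Function.Bijective (π k)) (hρ : ∀ t, Function.Bijective (ρ t))
    (hc : ∀ (t : Fin 3) (k : Bool) (x : G × Fin (bb n t)),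
      π k ((gdata G n e).f t k x) = (gdata G n e).f t k (ρ t x))
    (he : ∀ g : G, ∃ c < n, e c = g) :
    ∃ s : G, (∀ (k : Bool) (x : G × Fin (aa n k)), π k x = (s * x.1, x.2)) ∧
      (∀ (t : Fin 3) (x : G × Fin (bb n t)), ρ t x = (s * x.1, x.2)) := by
  -- the maps
  have f00 : ∀ (g : G) (c : ℕ) (hc : c < n + 3), (gdata G n e).f (0 : Fin 3) false (g, ⟨c, hc⟩) =
      ((g, ⟨c, by simp only [aa]; omega⟩) : G × Fin (aa n false)) := by
    intro g c hc
    change (g * 1, _) = _
    rw [mul_one]; rfl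
  have f01 : ∀ (g : G) (c : ℕ) (hc : c < n + 3), (gdata G n e).f (0 : Fin 3) true (g, ⟨c, hc⟩) =
      ((g, ⟨c, by simp only [aa]; omega⟩) : G × Fin (aa n true)) := by
    intro g c hc
    change (g * 1, _) = _
    rw [mul_one]; rfl
  have f10 : ∀ (g : G) (c : ℕ) (hc : c < n + 2), (gdata G n e).f (1 : Fin 3) false (g, ⟨c, hc⟩) =
      ((g, ⟨c + 1, by simp only [aa]; omega⟩) : G × Fin (aa n false)) := by
    intro g c hc
    change (g * 1, _) = _
    rw [mul_one]; rfl
  have f11 : ∀ (g : G) (c : ℕ) (hc : c < n + 2), (gdata G n e).f (1 : Fin 3) true (g, ⟨c, hc⟩) =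
      ((g, ⟨c, by simp only [aa]; omega⟩) : G × Fin (aa n true)) := by
    intro g c hc
    change (g * 1, _) = _
    rw [mul_one]; rfl
  have f20 : ∀ (g : G) (c : ℕ) (hc : c < n + 1), (gdata G n e).f (2 : Fin 3) false (g, ⟨c, hc⟩) =
      ((g, ⟨if c < n then c else n + 3, by simp only [aa]; split_ifs <;> omega⟩) :
        G × Fin (aa n false)) := by
    intro g c hc
    change (g * 1, _) = _
    rw [mul_one]; rfl
  have f21 : ∀ (g : G) (c : ℕ) (hc : c < n + 1), (gdata G n e).f (2 : Fin 3) true (g, ⟨c, hc⟩) =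
      ((g * e c, ⟨if c < n then c else n + 2, by simp only [aa]; split_ifs <;> omega⟩) :
        G × Fin (aa n true)) := by
    intro g c hc
    rfl
  -- ranges are preserved
  have hrange : ∀ (t : Fin 3) (k : Bool) (v : G × Fin (aa n k)),
      (∃ x, (gdata G n e).f t k x = π k v) → ∃ x, (gdata G n e).f t k x = v := by
    rintro t k v ⟨x, hx⟩
    obtain ⟨y, rfl⟩ := (hρ t).2 x
    rw [← hc] at hx
    exact ⟨y, (hπ k).1 hx⟩
  -- level zero is preserved
  have hzero : ∀ g : G, ∃ g' : G, π false (g, ⟨0, by simp only [aa]; omega⟩) =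
      (g', ⟨0, by simp only [aa]; omega⟩) := by
    intro g
    rcases hh : π false (g, ⟨0, by simp only [aa]; omega⟩) with ⟨g', ⟨c', hc'⟩⟩
    have h1 : c' < n + 3 := by
      have hz : 0 < n + 3 := by omega
      have h2 := hc (0 : Fin 3) false (g, ⟨0, hz⟩)
      rw [f00 g 0 hz, hh] at h2
      rcases h3 : ρ 0 (g, ⟨0, hz⟩) with ⟨g'', ⟨c'', hc''⟩⟩
      rw [h3] at h2
      have h4 : c'' < n + 3 := hc''
      have h5 := h2.trans (f00 g'' c'' h4)
      have h6 := congrArg (fun x : G × Fin (aa n false) => (x.2 : ℕ)) h5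
      simp only at h6
      omega
    have h2 : c' = 0 := by
      by_contra h3
      have h4 : ∃ x, (gdata G n e).f (1 : Fin 3) false x =
          π false (g, ⟨0, by simp only [aa]; omega⟩) := by
        refine ⟨(g', ⟨c' - 1, by change c' - 1 < n + 2; omega⟩), ?_⟩
        rw [hh]
        refine (f10 g' (c' - 1) (by omega)).trans ?_
        refine Prod.ext rfl (Fin.ext ?_)
        change c' - 1 + 1 = c'
        omega
      obtain ⟨⟨g'', ⟨c'', hc''⟩⟩, hx⟩ := hrange 1 false _ h4
      have h5 := (f10 g'' c'' hc'').symm.trans hx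
      have h6 := congrArg (fun x : G × Fin (aa n false) => (x.2 : ℕ)) h5
      simp only at h6
      omega
    subst h2
    exact ⟨g', rfl⟩
  choose σ hσ using hzero
  have finj : ∀ (t : Fin 3) (k : Bool), Function.Injective ((gdata G n e).f t k) :=
    fun t k => (gdata G n e).inj t k
  -- all levels are preserved
  have hlev : ∀ c : ℕ, ∀ h : c < n + 3, ∀ g : G,
      π false (g, ⟨c, by simp only [aa]; omega⟩) = (σ g, ⟨c, by simp only [aa]; omega⟩) ∧
      π true (g, ⟨c, by simp only [aa]; omega⟩) = (σ g, ⟨c, by simp only [aa]; omega⟩) := by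
    have step : ∀ c : ℕ, ∀ h : c < n + 3, ∀ g : G,
        π false (g, ⟨c, by simp only [aa]; omega⟩) = (σ g, ⟨c, by simp only [aa]; omega⟩) →
        π true (g, ⟨c, by simp only [aa]; omega⟩) = (σ g, ⟨c, by simp only [aa]; omega⟩) := by
      intro c h g h1
      have h2 := hc (0 : Fin 3) false (g, ⟨c, h⟩)
      rw [f00 g c h, h1] at h2
      have h3 : ρ 0 (g, ⟨c, h⟩) = (σ g, ⟨c, h⟩) := by
        apply finj 0 false
        rw [← h2]
        exact (f00 (σ g) c h).symm
      have h4 := hc (0 : Fin 3) true (g, ⟨c, h⟩)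
      rw [h3] at h4
      rw [f01 g c h] at h4
      exact h4.trans (f01 (σ g) c h)
    intro c
    induction c with
    | zero =>
      intro h g
      exact ⟨hσ g, step 0 h g (hσ g)⟩
    | succ c ih =>
      intro h g
      have h1 := (ih (by omega) g).2
      have hcc : c < n + 2 := by omega
      have h2 := hc (1 : Fin 3) true (g, ⟨c, hcc⟩)
      rw [f11 g c hcc, h1] at h2
      have h3 : ρ 1 (g, ⟨c, hcc⟩) = (σ g, ⟨c, hcc⟩) := by
        apply finj 1 true
        rw [← h2]
        exact (f11 (σ g) c hcc).symm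
      have h4 := hc (1 : Fin 3) false (g, ⟨c, hcc⟩)
      rw [h3] at h4
      rw [f10 g c hcc] at h4
      have h5 := h4.trans (f10 (σ g) c hcc)
      exact ⟨h5, step (c + 1) h g h5⟩
  -- the permutation `σ` commutes with right multiplications
  have hmul : ∀ g x : G, σ (g * x) = σ g * x := by
    intro g x
    obtain ⟨c, hcn, rfl⟩ := he x
    have hc1 : c < n + 1 := by omega
    have h1 := (hlev c (by omega) g).1
    have h2 := hc (2 : Fin 3) false (g, ⟨c, hc1⟩)
    have h20 : ∀ g, (gdata G n e).f (2 : Fin 3) false (g, ⟨c, hc1⟩) =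
        ((g, ⟨c, by simp only [aa]; omega⟩) : G × Fin (aa n false)) := by
      intro g
      refine (f20 g c hc1).trans ?_
      refine Prod.ext rfl (Fin.ext ?_)
      change (if c < n then c else n + 3) = c
      rw [if_pos hcn]
    have h21 : ∀ g, (gdata G n e).f (2 : Fin 3) true (g, ⟨c, hc1⟩) =
        ((g * e c, ⟨c, by simp only [aa]; omega⟩) : G × Fin (aa n true)) := by
      intro g
      refine (f21 g c hc1).trans ?_
      refine Prod.ext rfl (Fin.ext ?_)
      change (if c < n then c else n + 2) = c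
      rw [if_pos hcn]
    rw [h20 g, h1] at h2
    have h3 : ρ 2 (g, ⟨c, hc1⟩) = (σ g, ⟨c, hc1⟩) := by
      apply finj 2 false
      rw [← h2]
      exact (h20 (σ g)).symm
    have h4 := hc (2 : Fin 3) true (g, ⟨c, hc1⟩)
    rw [h3] at h4
    rw [h21 g, (hlev c (by omega) (g * e c)).2] at h4
    have h5 := h4.trans (h21 (σ g))
    exact congrArg Prod.fst h5
  have hσ1 : ∀ g, σ g = σ 1 * g := by
    intro g
    have := hmul 1 g
    rwa [one_mul] at this
  -- the last level
  have hlast : ∀ g : G, π false (g, ⟨n + 3, by simp only [aa]; omega⟩) =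
      (σ g, ⟨n + 3, by simp only [aa]; omega⟩) := by
    intro g
    have hc1 : n < n + 1 := by omega
    have h20 : ∀ g, (gdata G n e).f (2 : Fin 3) false (g, ⟨n, hc1⟩) =
        ((g, ⟨n + 3, by simp only [aa]; omega⟩) : G × Fin (aa n false)) := by
      intro g
      refine (f20 g n hc1).trans ?_
      refine Prod.ext rfl (Fin.ext ?_)
      change (if n < n then n else n + 3) = n + 3
      rw [if_neg (lt_irrefl n)]
    have h21 : ∀ g, (gdata G n e).f (2 : Fin 3) true (g, ⟨n, hc1⟩) =
        ((g * e n, ⟨n + 2, by simp only [aa]; omega⟩) : G × Fin (aa n true)) := by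
      intro g
      refine (f21 g n hc1).trans ?_
      refine Prod.ext rfl (Fin.ext ?_)
      change (if n < n then n else n + 2) = n + 2
      rw [if_neg (lt_irrefl n)]
    have h2 := hc (2 : Fin 3) true (g, ⟨n, hc1⟩)
    rw [h21 g, (hlev (n + 2) (by omega) (g * e n)).2, hmul] at h2
    have h3 : ρ 2 (g, ⟨n, hc1⟩) = (σ g, ⟨n, hc1⟩) := by
      apply finj 2 true
      rw [← h2]
      exact (h21 (σ g)).symm
    have h4 := hc (2 : Fin 3) false (g, ⟨n, hc1⟩)
    rw [h3] at h4
    rw [h20 g] at h4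
    exact h4.trans (h20 (σ g))
  have hall : ∀ (k : Bool) (x : G × Fin (aa n k)), π k x = (σ 1 * x.1, x.2) := by
    rintro (_ | _) ⟨g, ⟨c, hcc⟩⟩
    · have h1 : c < n + 4 := hcc
      by_cases h2 : c < n + 3
      · rw [← hσ1]; exact (hlev c h2 g).1
      · have h3 : c = n + 3 := by omega
        subst h3
        rw [← hσ1]; exact hlast g
    · have h1 : c < n + 3 := hcc
      rw [← hσ1]; exact (hlev c h1 g).2
  refine ⟨σ 1, hall, fun t x => ?_⟩
  apply finj t false
  refine (hc t false x).symm.trans ?_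
  refine (hall false _).trans ?_
  exact gcompat G n e (σ 1) t false x

theorem ghom_surjective [Finite G] (hn : 3 ≤ n) (he : ∀ g : G, ∃ c < n, e c = g) :
    Function.Surjective (ghom G n e hn) := by
  intro φ
  obtain ⟨π, ρ, h0, h1, hπ, hρ, hc⟩ := LData.exists_perms (gdata_ok G n e hn) φ
  obtain ⟨s, hs0, hs1⟩ := perm_key G n e π ρ hπ hρ (fun t k x => hc t k x) he
  refine ⟨s, ?_⟩
  apply LData.aut_ext (gdata_ok G n e hn)
  · rintro ⟨k, x⟩
    refine (gaut_j0 G n e s k x).trans (Eq.trans ?_ (h0 k x).symm)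
    exact congrArg (fun y => LData.j0 (D := gdata G n e) ⟨k, y⟩) (hs0 k x).symm
  · rintro ⟨k, x⟩
    refine (gaut_j1 G n e s k x).trans (Eq.trans ?_ (h1 k x).symm)
    exact congrArg (fun y => LData.j1 (D := gdata G n e) ⟨k, y⟩) (hs1 k x).symm

end Group

/-- Every finite group is the automorphism group of a finite modular lattice of height at
most ten. -/
theorem exists_lattice (G : Type) [Group G] [Finite G] :
    ∃ (L : Type) (_ : Lattice L), IsModularLattice L ∧ Finite L ∧ Nonempty L ∧
      Order.krullDim L ≤ ((10 : ℕ) : WithBot ℕ∞) ∧ Nonempty ((L ≃o L) ≃* G) := by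
  obtain ⟨m, ⟨ε⟩⟩ := Finite.exists_equiv_fin G
  let e : ℕ → G := fun c => if h : c < m then ε.symm ⟨c, h⟩ else 1
  have he : ∀ g : G, ∃ c < m + 3, e c = g := by
    intro g
    refine ⟨ε g, by have := (ε g).2; omega, ?_⟩
    simp [e]
  have hn : 3 ≤ m + 3 := by omega
  have hok := gdata_ok G (m + 3) e hn
  have h1 := hok.finK0
  have h2 := hok.finK1
  have h3 := hok.finV
  have h4 := hok.finE
  refine ⟨(gdata G (m + 3) e).L, inferInstance, inferInstance, inferInstance, inferInstance,
    ?_, ⟨(MulEquiv.ofBijective (ghom G (m + 3) e hn)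
      ⟨ghom_injective G (m + 3) e hn, ghom_surjective G (m + 3) e hn he⟩).symm⟩⟩
  let i0 : Fintype (gdata G (m + 3) e).K0 := inferInstanceAs (Fintype Bool)
  let i1 : Fintype (gdata G (m + 3) e).K1 := inferInstanceAs (Fintype (Fin 3))
  apply LData.krullDim_le
  have c0 : Fintype.card (gdata G (m + 3) e).K0 = 2 := Fintype.card_bool
  have c1 : Fintype.card (gdata G (m + 3) e).K1 = 3 := Fintype.card_fin 3
  omega

end Pool.Agent.H.MP_2de88f_co
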